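import Pool.Agent.H309R3.Polar

set_option autoImplicit false

namespace Pool.Agent.Results.MP_08f71d_gt.Inhomogeneous

open Pool.Agent.H309R3

/-- **An inhomogeneous hyperpolar foliation of codimension two on `SL(4,ℝ)/SO(4)`.**
On the irreducible symmetric space of noncompact type `SL(4,ℝ)/SO(4)` (rank three, realised as the
positive definite symmetric `4 × 4` matrices of determinant one with the metric
`tr (P⁻¹ X P⁻¹ Y)`) there is a singular Riemannian foliation of codimension two, with connected
closed embedded leaves, which is hyperpolar and whose leaves are not the orbits of any group of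
isometries.

The foliation is the preimage, under the Iwasawa projection `SL(4,ℝ)/SO(4) → 𝔞 ≅ ℝ³` (a Riemannian
submersion whose fibres are the orbits of the unipotent group `N`), of the foliation of `ℝ³` by the
orbits of a rotation group `SO(2)`. -/
theorem result : ∃ F : Set (Set (Mat 4)), IsSRF F 2 ∧ IsHyperpolar F 2 ∧ ¬ IsHomogeneous F :=
  ⟨fol, isSRF_fol, hyperpolar, not_homogeneous⟩

end Pool.Agent.Results.MP_08f71d_gt.Inhomogeneous
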